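import Pool.Agent.Lib.MP_035963_ag.Inter
import Pool.Agent.Lib.MP_0d42ed_ag.Mod3.Top

set_option autoImplicit false

namespace Pool.Agent.Retired.MP_035963_ag.FermatD

open Pool.Agent.Lib.MP_0d42ed_ag Pool.Agent.Lib.MP_0d42ed_ag.Fer Pool.Agent.Lib.MP_035963_ag

/-- The Fermat form of degree `d` in `2 r + 2` variables over the algebraic closure of `K`. -/
noncomputable def ferm (K : Type) [Field K] (r d : ℕ) :
    MvPolynomial (Fin (2 * r + 2)) (AlgebraicClosure K) :=
  ∑ x, MvPolynomial.X x ^ d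

/-- The trace formula for the points of the cone over the Fermat variety `X`: the number of points
of `X` over `L` is `∑ |L| ^ i + |L| ^ r * tr φ ^ [L : K]`, the sum over `i ≤ 2 r`, `i ≠ r`. -/
def TraceFormula (K : Type) [Field K] (r d : ℕ) {Λ V : Type} [Field Λ] [AddCommGroup V]
    [Module Λ V] (φ : V →ₗ[Λ] V) : Prop :=
  ∀ (L : Type) [Field L] [Fintype L] [Algebra K L],
    (Nat.card {x : Fin (2 * r + 2) → L // ∑ i, x i ^ d = 0} : Λ) =
      1 + (Fintype.card L - 1) *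
        (∑ i ∈ (Finset.range (2 * r + 1)).erase r, (Fintype.card L : Λ) ^ i +
          Fintype.card L ^ r * LinearMap.trace Λ V (φ ^ Module.finrank K L))

/-- Let `V` with Frobenius `φ`, pairing `β` and cycle class `cl` have the formal properties of the
middle cohomology of the Fermat variety of degree `d` and dimension `2 r`: trace formula,
compatibility of `β` with intersection numbers, and invariance of each cycle class under a power of
`φ`. Then the map `Λ ⊗ A → V` is injective, `A` being the rational span of the cycle classes. -/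
theorem result (K : Type) [Field K] [Fintype K] (p d r : ℕ) [CharP K p] (hd : ¬ p ∣ d)
    (H : (∃ l b : ℕ, l.Prime ∧ d = l ^ b) ∨ p ≠ 2 ∧
      ((∀ α : Fin (2 * r + 2) → ZMod d, Bal p α → Good p α) ∨
        (∀ q ∈ d.primeFactors, q % 4 = 1 →
          (∀ l ∈ (d / d.gcd 2).primeFactors, l ≠ q → IsSquare (l : ZMod q)) ∨
            q = 5 ∧ (d / d.gcd 2).primeFactors.card ≤ 3) ∧
        ((∀ q ∈ d.primeFactors, q % 4 ≠ 1) ∨ ∃ f, Odd f ∧ p ^ f ≡ 1 [MOD d])))
    (Λ V : Type) [Field Λ] [CharZero Λ] [AddCommGroup V] [Module Λ V] [FiniteDimensional Λ V]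
    [Module ℚ V] (φ : V →ₗ[Λ] V) (β : V →ₗ[Λ] V →ₗ[Λ] Λ)
    (cl : Ideal (MvPolynomial (Fin (2 * r + 2)) (AlgebraicClosure K)) → V)
    (htr : TraceFormula K r d φ)
    (hβ : ∀ P Q c, IsSub (ferm K r d) r P → IsSub (ferm K r d) r Q → IsInter (ferm K r d) P Q c →
      β (cl P) (cl Q) = c)
    (hφ : ∀ P, IsSub (ferm K r d) r P → ∃ N, 0 < N ∧ (φ ^ N) (cl P) = cl P) :
    Function.Injective
      ((Submodule.span ℚ (cl '' {P | IsSub (ferm K r d) r P})).subtype.liftBaseChange Λ) := by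
  classical
  have : Fact p.Prime := ⟨CharP.char_is_prime K p⟩
  have hd' : (d : AlgebraicClosure K) ≠ 0 :=
    fun h => hd ((CharP.cast_eq_zero_iff (AlgebraicClosure K) p d).1 h)
  have key : ∃ (J : Type) (_ : Fintype J) (_ : DecidableEq J) (ω : J → ℂ),
      (∀ (L : Type) [Field L] [Fintype L] [Algebra K L],
        (Nat.card {x : Fin (2 * r + 2) → L // ∑ i, x i ^ d = 0} : ℂ) =
          (Fintype.card L : ℂ) ^ (2 * r + 1) +
            (Fintype.card L - 1) * ∑ j, ω j ^ Module.finrank K L) ∧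
      ∀ T : Finset J, (∀ j ∈ T, ∃ N : ℕ, 0 < N ∧ ω j ^ N = (Fintype.card K : ℂ) ^ (r * N)) →
        NumRank (ferm K r d) r (Option T) := by
    have old : ((∃ l b : ℕ, l.Prime ∧ d = l ^ b) ∨ p ≠ 2 ∧
        ∀ α : Fin (2 * r + 2) → ZMod d, Bal p α → Good p α) → ∃ (J : Type) (_ : Fintype J)
        (_ : DecidableEq J) (ω : J → ℂ),
      (∀ (L : Type) [Field L] [Fintype L] [Algebra K L],
        (Nat.card {x : Fin (2 * r + 2) → L // ∑ i, x i ^ d = 0} : ℂ) =
          (Fintype.card L : ℂ) ^ (2 * r + 1) +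
            (Fintype.card L - 1) * ∑ j, ω j ^ Module.finrank K L) ∧
      ∀ T : Finset J, (∀ j ∈ T, ∃ N : ℕ, 0 < N ∧ ω j ^ N = (Fintype.card K : ℂ) ^ (r * N)) →
        NumRank (ferm K r d) r (Option T) := fun H => by
      obtain ⟨J, _, ω, hω⟩ := weilStmt wPermStmt wCountStmt wLiftStmt wFrobStmt K p d r hd
      refine ⟨J, inferInstance, inferInstance, ω, hω, fun T hT => ?_⟩
      obtain ⟨E, F, h1, h2⟩ := Final.final0 primeGenStmt (auto15Stmt b1Stmt) (autoTopStmt b1Stmt)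
        K p d r hd (H.imp_right fun h => ⟨h.1, Or.inr (Or.inr h.2)⟩) _ _ hω T hT
      exact bridgeStmt p r d T E F hd' h1 h2
    rcases H with H | ⟨h2, H | ⟨h0, h1⟩⟩
    · exact old (Or.inl H)
    · exact old (Or.inr ⟨h2, H⟩)
    obtain ⟨b, ω, a1, a2⟩ := FM3.final3 FM3.modAll3 FM.specStmt FM3.arithP3 FM3.arith03 FM.psiStmt
      (AlgebraicClosure K) K p d r
      (fun h => h2 ((Nat.prime_dvd_prime_iff_eq Fact.out Nat.prime_two).1
        ((CharP.cast_eq_zero_iff (AlgebraicClosure K) p 2).1 h)))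
      (by
        have : ExpChar (AlgebraicClosure K) p := ExpChar.prime Fact.out
        rw [ringExpChar.eq (AlgebraicClosure K) p]) hd h0 h1
    exact ⟨_, inferInstance, inferInstance, ω, a1, a2⟩
  obtain ⟨J, _, _, ω, hω, hN⟩ := key
  let T : Finset J := Finset.univ.filter fun j =>
    ∃ N : ℕ, 0 < N ∧ ω j ^ N = (Fintype.card K : ℂ) ^ (r * N)
  obtain ⟨A, B, c, hA, hB, hc, hdet⟩ := hN T fun j hj => (Finset.mem_filter.1 hj).2
  refine inj_of_indep _ fun u hu hi => indep_of_det β (cl '' {P | IsSub (ferm K r d) r P})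
    (fun i => cl (A i)) (fun j => cl (B j)) c (fun i => ⟨_, hA i, rfl⟩)
    (fun i j => hβ _ _ _ (hA i) (hB j) (hc i j)) hdet ?_
    (dim_le K p d r ω hω φ htr _ ?_ T fun j hj => Finset.mem_filter.2 ⟨Finset.mem_univ _, hj⟩)
    u hu hi
  · rintro _ ⟨P, hP, rfl⟩ j
    obtain ⟨e, he⟩ := exists_inter p r d hd' P (B j) hP (hB j)
    exact ⟨e, hβ _ _ _ hP (hB j) he⟩
  · rintro _ ⟨P, hP, rfl⟩
    exact hφ P hP

end Pool.Agent.Retired.MP_035963_ag.FermatD
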