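import Pool.Agent.Lib.MP_035963_ag.HN.Top

/-! An element of the scalar extension of the image of the cycle class map whose class is
numerically trivial is zero (so the map of the problem is injective, and homological and numerical
equivalence agree), when the cohomology ring is generated by irreducible pieces whose Tate classes
of determinant type are algebraic. -/

namespace Pool.Agent.Retired.MP_035963_ag.IrreducibleMonodromy

open CategoryTheory AlgebraicGeometry TensorProduct Pool.Agent.Lib.MP_035963_ag.HN

theorem result {k Λ : Type} [Field k] [Field Λ] [CharZero Λ] (H : Over (Spec (.of k)) → Type)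
    [∀ X, Ring (H X)] [∀ X, Algebra Λ (H X)] [∀ X, Module ℚ (H X)] (W : Coh Λ H) (hW : W.Weil)
    (X : Over (Spec (.of k))) (hX : W.V X) (h : W.Mono X) (z : Λ ⊗[ℚ] W.A X)
    (hz : ∀ x, W.tr X ((W.A X).subtype.liftBaseChange Λ z * W.cl X x) = 0) : z = 0 := by
  refine inj hW hX h ((nondeg hW hX h ?_ hz).trans (map_zero _).symm)
  clear hz
  induction z with
  | zero => simp
  | tmul c a => exact Submodule.smul_mem _ _ (A_le a.2)
  | add _ _ a b => exact map_add ((W.A X).subtype.liftBaseChange Λ) _ _ ▸ add_mem a b

end Pool.Agent.Retired.MP_035963_ag.IrreducibleMonodromy
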